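import Pool.Agent.X180.Abn.Geo


/-!
Linear systems with one component; comparison of two definitions of the Kodaira dimension.
-/

set_option autoImplicit false
set_option linter.overlappingInstances false

open FF Pool.Agent.W619.TW Pool.Agent.W619.Y

namespace Pool.Agent.X180.Abn

theorem kodGe_of_kodTr {K : Type} [Field K] [Algebra ℂ K] {w κ : ℕ} (h : KodTr ℂ K w κ) :
    Pool.Agent.W602.GT.KodGe ℂ K w (fun _ => False) κ := by
  obtain ⟨m, hm, ω, h1, D, h2, h3⟩ := h
  have hreg : ∀ j (P : Place ℂ K), Pool.Agent.W602.GT.Divisorial w P →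
      Pool.Agent.W602.GT.RegAt P (ω j) := by
    intro j P hP D' hD'
    rcases (h1 j).2.1 P hP id D' hD' with h5 | ⟨s, hs, h5, h6⟩
    · exact Or.inl h5
    · right
      simpa using h6
  exact ⟨m, hm, ω, fun j => ⟨(h1 j).1, fun P hP D hD =>
    hreg j P hP D fun i => Pool.Agent.TH466.QG.derReg_of_log (hD i), fun P hP _ => hreg j P hP⟩,
    D, h2 0, h3⟩

theorem dcp_one {K : Type} [Field K] [Algebra ℂ K] {n q : ℕ} {V : Submodule ℂ K} {φ : Fin q → K}
    (hφ : Submodule.span ℂ (Set.range φ) = V) (hn : Module.finrank ℂ V = n + 1) :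
    Pool.Agent.TH585.SV.Dcp n V φ (fun _ => (0 : Fin 1)) := by
  have : FiniteDimensional ℂ V := by
    refine Module.finite_of_finrank_pos ?_
    omega
  let b := Module.finBasisOfFinrankEq ℂ V hn
  have h1 : Submodule.span ℂ (Set.range fun i => (b i : K)) = V := by
    have h2 := b.span_eq
    have h3 := congrArg (Submodule.map V.subtype) h2
    rw [Submodule.map_span, Submodule.map_top, Submodule.range_subtype, ← Set.range_comp] at h3
    exact h3
  refine ⟨fun i => (b i : K), fun _ => 0, ?_, h1, ?_, ?_⟩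
  · exact b.linearIndependent.map' V.subtype (Submodule.ker_subtype V)
  · intro j
    exact ⟨0, Subsingleton.elim _ _⟩
  · intro i
    have h2 : {a : Fin (n + 1) | (0 : Fin 1) = 0} = Set.univ := Set.eq_univ_of_forall fun _ => rfl
    change φ i ∈ Submodule.span ℂ ((fun i => (b i : K)) '' {a : Fin (n + 1) | (0 : Fin 1) = 0})
    rw [h2, Set.image_univ, h1, ← hφ]
    exact Submodule.subset_span ⟨i, rfl⟩

/-- `V` is not the direct sum of two nonzero subspaces which together contain all the `φ i`. -/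
def Indec {K : Type} [Field K] [Algebra ℂ K] {q : ℕ} (V : Submodule ℂ K) (φ : Fin q → K) : Prop :=
  ∀ V₁ V₂ : Submodule ℂ K, V₁ ⊔ V₂ = V → V₁ ⊓ V₂ = ⊥ → (∀ i, φ i ∈ V₁ ∨ φ i ∈ V₂) →
    V₁ = ⊥ ∨ V₂ = ⊥

theorem not_dcp {K : Type} [Field K] [Algebra ℂ K] {n q : ℕ} {V : Submodule ℂ K} {φ : Fin q → K}
    (h : Indec V φ) (γ : Fin q → Fin (1 + 1)) :
    ¬ Pool.Agent.TH585.SV.Dcp n V φ γ := by
  rintro ⟨x, g, hx, hxV, hg, hγ⟩
  have hne : ∀ a, x a ≠ 0 := fun a => hx.ne_zero a
  have hu : x '' {a | g a = 0} ∪ x '' {a | g a = 1} = Set.range x := by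
    rw [← Set.image_union, ← Set.image_univ]
    congr 1
    ext a
    refine ⟨fun _ => Set.mem_univ _, fun _ => ?_⟩
    have := (g a).2
    rcases (show (g a : ℕ) = 0 ∨ (g a : ℕ) = 1 by omega) with h1 | h1
    · exact Or.inl (Fin.ext h1)
    · exact Or.inr (Fin.ext h1)
  have h2 : Submodule.span ℂ (x '' {a | g a = 0}) ⊓ Submodule.span ℂ (x '' {a | g a = 1}) = ⊥ := by
    refine (hx.disjoint_span_image ?_).eq_bot
    rw [Set.disjoint_left]
    intro a (h1 : g a = 0) (h2 : g a = 1)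
    rw [h1] at h2
    exact absurd h2 (by decide)
  have h3 : ∀ i, φ i ∈ Submodule.span ℂ (x '' {a | g a = 0}) ∨
      φ i ∈ Submodule.span ℂ (x '' {a | g a = 1}) := by
    intro i
    have h1 := hγ i
    have := (γ i).2
    rcases (show (γ i : ℕ) = 0 ∨ (γ i : ℕ) = 1 by omega) with h2 | h2
    · left
      rwa [show γ i = 0 from Fin.ext h2] at h1
    · right
      rwa [show γ i = 1 from Fin.ext h2] at h1
  rcases h _ _ (by rw [← Submodule.span_union, hu, hxV]) h2 h3 with h1 | h1
  · obtain ⟨a, ha⟩ := hg 0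
    refine hne a ((Submodule.mem_bot ℂ).1 ?_)
    rw [← h1]
    exact Submodule.subset_span ⟨a, ha, rfl⟩
  · obtain ⟨a, ha⟩ := hg 1
    refine hne a ((Submodule.mem_bot ℂ).1 ?_)
    rw [← h1]
    exact Submodule.subset_span ⟨a, ha, rfl⟩

theorem trdeg_of_alg {K : Type} [Field K] [Algebra ℂ K] {U L : IntermediateField ℂ K} (h : U ≤ L)
    (hL : ∀ x ∈ L, IsAlgebraic U x) : Algebra.trdeg ℂ L = Algebra.trdeg ℂ U := by
  let _ : Algebra U L := (IntermediateField.inclusion h).toRingHom.toAlgebra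
  have t1 : IsScalarTower ℂ U L := IsScalarTower.of_algebraMap_eq fun x => rfl
  have t2 : Algebra.IsAlgebraic U L := ⟨fun x => by
    refine IsAlgebraic.of_ringHom_of_comp_eq (R := U) (S := U) (A := L) (B := K) (a := x)
      (hL x x.2) (f := RingHom.id U) (g := L.val.toRingHom)
      Function.surjective_id L.val.injective rfl⟩
  have h1 := _root_.trdeg_add_eq ℂ U (A := L)
  rw [trdeg_eq_zero_iff.2 t2, add_zero] at h1
  exact h1.symm

end Pool.Agent.X180.Abn
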