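import Pool.Agent.X180.Iso.Main
import Pool.Agent.TH466.QG.Equiv
import Pool.Agent.Y174.W4

/-!
Transport of the Kodaira dimension along an isomorphism of function fields, and the comparison of two
definitions.
-/

set_option autoImplicit false
set_option linter.overlappingInstances false

open FF Pool.Agent.W602.GT Pool.Agent.TH466.QG

namespace Pool.Agent.X180.Abn

variable {k F F' : Type} [Field k] [CharZero k] [IsAlgClosed k] [Field F] [Field F'] [Algebra k F]
  [Algebra k F']

theorem kodGe_of_equiv (e : F ≃ₐ[k] F') {w κ : ℕ}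
    (h : Pool.Agent.W602.GT.KodGe k F w (fun _ => False) κ) :
    Pool.Agent.W602.GT.KodGe k F' w (fun _ => False) κ := by
  obtain ⟨N, hN, ω, hω, D, hD0, hD⟩ := h
  have hreg : ∀ j (P : Place k F'), Divisorial w P →
      RegAt P (fun D' => e (ω j (fun i => pushD e.symm (D' i)))) := by
    intro j P hP D' hD'
    change P.Reg (e _)
    rw [← reg_pullPl e P]
    refine (hω j).2.2 (pullPl e P) ?_ id _ fun i f hf => ?_
    · obtain ⟨u, hu⟩ := hP
      refine ⟨fun i => e.symm (u i), fun G hG => ?_⟩
      have h1 : MvPolynomial.aeval (fun i => e.symm (u i)) G = e.symm (MvPolynomial.aeval u G) := by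
        rw [← AlgEquiv.coe_toAlgHom, ← MvPolynomial.comp_aeval_apply]
      rw [h1]
      refine ⟨by simpa using (hu G hG).1, ?_⟩
      change P.ord (e (e.symm _)) = 0
      rw [AlgEquiv.apply_symm_apply]
      exact (hu G hG).2
    · rw [reg_pullPl] at hf ⊢
      rw [pushD_apply, AlgEquiv.symm_symm, AlgEquiv.apply_symm_apply]
      exact hD' i _ hf
  refine ⟨N, hN, fun j D' => e (ω j (fun i => pushD e.symm (D' i))), fun j => ⟨fun A D' => ?_,
    fun P hP D' hD' => hreg j P hP D' fun i => derReg_of_log (hD' i),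
    fun P hP _ => hreg j P hP⟩, fun i => pushD e (D i), ?_, ?_⟩
  · have h1 : (fun i => pushD e.symm (∑ l, A i l • D' l)) =
        fun i => ∑ l, (A.map e.symm) i l • pushD e.symm (D' l) := by
      funext i
      ext x
      rw [pushD_apply, Pool.Agent.W357.PG.sum_apply', Pool.Agent.W357.PG.sum_apply', map_sum]
      refine Finset.sum_congr rfl fun l _ => ?_
      rw [Derivation.coe_smul, Pi.smul_apply, smul_eq_mul, map_mul, Matrix.map_apply,
        Derivation.coe_smul, Pi.smul_apply, smul_eq_mul, pushD_apply]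
    change e (ω j (fun i => pushD e.symm (∑ l, A i l • D' l))) = _
    rw [h1, (hω j).1, map_mul, map_pow]
    congr 2
    have h2 := RingHom.map_det (e : F →+* F') (A.map e.symm)
    change e _ = _ at h2
    rw [h2]
    congr 1
    ext i l
    simp [RingHom.mapMatrix_apply]
  · simp only [pushD_symm]
    simpa using hD0
  · simp only [pushD_symm]
    have h1 := hD.map' (f := (e : F →ₐ[k] F')) e.injective
    convert h1 using 1
    funext i
    simp

omit [CharZero k] [IsAlgClosed k] in
theorem kodTr_of_kodGe {K : Type} [Field K] [Algebra k K] {w κ : ℕ}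
    (h : Pool.Agent.W602.GT.KodGe k K w (fun _ => False) κ) : Pool.Agent.W619.Y.KodTr k K w κ := by
  obtain ⟨m, hm, ω, h1, D, h3, h4⟩ := h
  refine ⟨m, hm, ω, fun l => ⟨(h1 l).1, fun P hP _ D' hD' => ?_, fun P _ h => absurd h id⟩, D, ?_,
    h4⟩
  · rcases (h1 l).2.2 P hP id D' hD' with h5 | h5
    · exact Or.inl h5
    · refine Or.inr ⟨1, Finset.mem_singleton_self _, one_ne_zero, ?_⟩
      simpa using h5
  · intro l
    refine Fin.cases h3 (fun l h0 => ?_) l
    apply h4.ne_zero l
    rw [h0, zero_div]

end Pool.Agent.X180.Abn
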