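import Pool.Agent.X180.Abn.Equiv

/-!
Forms along the fibres from a variety over the constants which is dominated by the geometric generic
fibre.
-/

set_option autoImplicit false
set_option linter.overlappingInstances false

open FF Pool.Agent.W602.GT Pool.Agent.Y191 Pool.Agent.TH585.SV Pool.Agent.X180.Iso

namespace Pool.Agent.X180.Abn

section gen

variable {K Λ F : Type} [Field K] [Field Λ] [Field F] [Algebra ℂ K] [Algebra ℂ Λ] [Algebra ℂ F]
  [Algebra Λ F] [Algebra K F] [IsScalarTower ℂ Λ F] [IsScalarTower ℂ K F]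

omit [Algebra ℂ K] [Algebra ℂ Λ] [Algebra ℂ F] [IsScalarTower ℂ Λ F] [IsScalarTower ℂ K F] in
/-- The composite is generated over `K` by the constants `Λ`. -/
theorem gen_swap (hgen : IntermediateField.adjoin Λ (Set.range (algebraMap K F)) = ⊤) :
    IntermediateField.adjoin K (Set.range (algebraMap Λ F)) = ⊤ := by
  refine top_unique fun z _ => ?_
  have hz : z ∈ IntermediateField.adjoin Λ (Set.range (algebraMap K F)) := by
    rw [hgen]
    trivial
  induction hz using IntermediateField.adjoin_induction with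
  | mem x hx =>
    obtain ⟨a, rfl⟩ := hx
    exact IntermediateField.algebraMap_mem _ a
  | algebraMap x => exact IntermediateField.subset_adjoin _ _ ⟨x, rfl⟩
  | add x y _ _ h1 h2 => exact add_mem (h1 trivial) (h2 trivial)
  | inv x _ h1 => exact inv_mem (h1 trivial)
  | mul x y _ _ h1 h2 => exact mul_mem (h1 trivial) (h2 trivial)

omit [Algebra ℂ Λ] [Algebra ℂ F] [IsScalarTower ℂ Λ F] [IsScalarTower ℂ K F] in
/-- A finite set of elements of the composite is in `K(α)` for some `α` algebraic over `L`. -/
theorem exists_prim {L : IntermediateField ℂ K}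
    (hgen : IntermediateField.adjoin Λ (Set.range (algebraMap K F)) = ⊤)
    (hΛ : ∀ z : Λ, IsAlgebraic L (algebraMap Λ F z)) (s : Finset F) :
    ∃ α : F, IsAlgebraic L α ∧ ∀ z ∈ s, z ∈ IntermediateField.adjoin K {α} := by
  classical
  have hcL : CharZero L := charZero_of_injective_algebraMap (algebraMap ℂ L).injective
  have h1 : ∀ z : F, ∃ T : Finset F, (T : Set F) ⊆ Set.range (algebraMap Λ F) ∧
      z ∈ IntermediateField.adjoin K (T : Set F) := by
    intro z
    refine IntermediateField.exists_finset_of_mem_adjoin ?_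
    rw [gen_swap hgen]
    trivial
  choose T hT hzT using h1
  let T' : Finset F := s.biUnion T
  have hT' : ∀ z ∈ T', IsAlgebraic L z := by
    intro z hz
    obtain ⟨w, -, hw⟩ := Finset.mem_biUnion.1 hz
    obtain ⟨a, rfl⟩ := hT w hw
    exact hΛ a
  have hfin : FiniteDimensional L (IntermediateField.adjoin L (T' : Set F)) :=
    IntermediateField.finiteDimensional_adjoin fun z hz => (hT' z hz).isIntegral
  obtain ⟨α, hα⟩ := Field.exists_primitive_element L (IntermediateField.adjoin L (T' : Set F))
  have hαL : IsAlgebraic L α := Algebra.IsAlgebraic.isAlgebraic α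
  refine ⟨α, ?_, fun z hz => ?_⟩
  · exact hαL.algHom (IntermediateField.adjoin L (T' : Set F)).val
  · have h2 : ∀ t ∈ T', t ∈ IntermediateField.adjoin K {(α : F)} := by
      intro t ht
      have h3 : (⟨t, IntermediateField.subset_adjoin L _ ht⟩ :
          IntermediateField.adjoin L (T' : Set F)) ∈ IntermediateField.adjoin L {α} := by
        rw [hα]
        trivial
      have h4 : (⟨t, IntermediateField.subset_adjoin L _ ht⟩ :
          IntermediateField.adjoin L (T' : Set F)) ∈
            (IntermediateField.adjoin L {α}).toSubalgebra := h3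
      rw [IntermediateField.adjoin_simple_toSubalgebra_of_isAlgebraic hαL,
        Algebra.adjoin_singleton_eq_range_aeval] at h4
      obtain ⟨p, hp⟩ := h4
      have h5 : Polynomial.aeval (α : F) p = t := by
        have h6 := congrArg (IntermediateField.adjoin L (T' : Set F)).val hp
        change (IntermediateField.adjoin L (T' : Set F)).val (Polynomial.aeval α p) = t at h6
        rw [← Polynomial.aeval_algHom_apply] at h6
        exact h6
      rw [← h5, Polynomial.aeval_eq_sum_range]
      refine sum_mem fun i _ => ?_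
      have h7 : p.coeff i • (α : F) ^ i = (algebraMap L K (p.coeff i)) • (α : F) ^ i := by
        rw [IsScalarTower.algebraMap_smul]
      rw [h7]
      exact IntermediateField.smul_mem _ (pow_mem
        (IntermediateField.subset_adjoin _ _ (Set.mem_singleton _)) i)
    refine (IntermediateField.adjoin_le_iff.2 ?_) (hzT z)
    intro t ht
    exact h2 t (Finset.mem_biUnion.2 ⟨z, hz, ht⟩)

end gen

section geo

variable {K Λ F : Type} [Field K] [Field Λ] [Field F] [Algebra ℂ K] [Algebra ℂ Λ] [Algebra ℂ F]
  [Algebra Λ F] [Algebra K F] [IsScalarTower ℂ Λ F] [IsScalarTower ℂ K F]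

omit [Algebra ℂ Λ] [IsScalarTower ℂ Λ F] in
/-- **Forms along the fibres from a variety over the constants which is dominated by the geometric
generic fibre.** -/
theorem geo_forms {N e lam : ℕ} (hN : Algebra.trdeg ℂ K = N) {L U : IntermediateField ℂ K}
    (hU : Algebra.trdeg U K = e) (hLU : ∀ x ∈ L, IsAlgebraic U x)
    (hgen : IntermediateField.adjoin Λ (Set.range (algebraMap K F)) = ⊤)
    (hΛ : ∀ z : Λ, IsAlgebraic L (algebraMap Λ F z))
    (M : IntermediateField ℂ F) [Algebra.EssFiniteType ℂ M] (hM : Algebra.trdeg ℂ M = e)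
    (hdom : ∀ z : F, IsAlgebraic (IntermediateField.adjoin Λ (M : Set F)) z)
    (hk : Pool.Agent.W602.GT.KodGe ℂ M e (fun _ => False) lam) (X : Set (Place ℂ K)) :
    ∃ m : ℕ, 0 < m ∧ ∃ θ : Fin (lam + 1) → (Fin e → Derivation U K K) → K,
      (∀ b, FibSec N m X (fun _ => 0) U (θ b)) ∧ ∃ G, θ 0 G ≠ 0 ∧
        AlgebraicIndependent U (fun i : Fin lam => θ i.succ G / θ 0 G) := by
  classical
  -- algebraic over `L` implies algebraic over `U`
  have hLA : ∀ z : F, IsAlgebraic L z → z ∈ Acl (upF F U) := by
    intro z hz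
    have h1 : upF F L ≤ Acl (upF F U) := by
      intro w hw
      obtain ⟨a, ha, rfl⟩ := mem_upF.1 hw
      rw [mem_acl]
      have h2 : IsAlgebraic U (algebraMap K F a) :=
        (hLU a ha).algHom (IsScalarTower.toAlgHom U K F)
      exact alg_up h2
    exact acl_acl (alg_mono h1 (alg_up hz))
  obtain ⟨s, hs⟩ := IntermediateField.essFiniteType_iff.1 ‹Algebra.EssFiniteType ℂ M›
  obtain ⟨α, hα, hsα⟩ := exists_prim hgen hΛ s
  have hαU : IsAlgebraic U α := by
    have h1 := mem_acl.1 (hLA α hα)
    refine h1.of_ringHom_of_comp_eq (upE F U) (RingHom.id F) (upE F U).surjective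
      Function.injective_id upE_comp
  obtain ⟨K', hK'⟩ : ∃ K' : IntermediateField K F, K' = IntermediateField.adjoin K {α} := ⟨_, rfl⟩
  have hαK' : α ∈ K' := by
    rw [hK']
    exact IntermediateField.subset_adjoin _ _ (Set.mem_singleton _)
  have hMK' : ∀ z ∈ M, z ∈ K' := by
    have h1 : M ≤ K'.restrictScalars ℂ := by
      rw [← hs, IntermediateField.adjoin_le_iff]
      intro z hz
      change z ∈ K'
      rw [hK']
      exact hsα z hz
    exact h1
  let v : K' →ₐ[ℂ] F := K'.val.restrictScalars ℂ
  obtain ⟨M', hM'⟩ : ∃ M' : IntermediateField ℂ K', M' = M.comap v := ⟨_, rfl⟩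
  have hmem : ∀ z : K', z ∈ M' ↔ (z : F) ∈ M := by
    intro z
    rw [hM']
    rfl
  let ε : M ≃ₐ[ℂ] M' :=
    { toFun := fun z => ⟨⟨z, hMK' z z.2⟩, (hmem _).2 z.2⟩
      invFun := fun z => ⟨((z : K') : F), (hmem _).1 z.2⟩
      left_inv := fun z => rfl
      right_inv := fun z => rfl
      map_mul' := fun x y => rfl
      map_add' := fun x y => rfl
      commutes' := fun r => rfl }
  have hess : Algebra.EssFiniteType ℂ M' := (Algebra.EssFiniteType.iff_of_algEquiv ε).1 ‹_›
  have htrM' : Algebra.trdeg ℂ M' = e := by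
    rw [← hM]
    exact ε.symm.trdeg_eq
  have hk' := kodGe_of_equiv ε hk
  obtain ⟨β, hβ⟩ : ∃ β : K', (β : F) = α := ⟨⟨α, hαK'⟩, rfl⟩
  have hβU : IsAlgebraic U β := by
    refine IsAlgebraic.of_ringHom_of_comp_eq (R := U) (S := U) (A := K') (B := F) (a := β)
      (by rw [← hβ] at hαU; exact hαU) (f := RingHom.id U) (g := K'.val.toRingHom)
      Function.surjective_id K'.val.injective rfl
  have htop : IntermediateField.adjoin K {β} = ⊤ := by
    apply IntermediateField.lift_injective K'
    rw [IntermediateField.lift_adjoin_simple, IntermediateField.lift_top, hβ, hK']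
  have hfin : FiniteDimensional K K' := fin_of_top hβU htop
  refine fib_forms hN hU hβU htop M' htrM' (fun z => ?_) hk' X
  -- the domination
  obtain ⟨T, hT⟩ : ∃ T : IntermediateField ℂ K',
    T = IntermediateField.adjoin ℂ ((upF K' U : Set K') ∪ M') := ⟨_, rfl⟩
  rw [← hT]
  have hUT : upF F U ≤ T.map v := by
    intro w hw
    obtain ⟨a, ha, rfl⟩ := mem_upF.1 hw
    refine ⟨algebraMap K K' a, ?_, rfl⟩
    rw [hT]
    exact IntermediateField.subset_adjoin _ _ (Or.inl (mem_upF.2 ⟨a, ha, rfl⟩))
  have hMT : M ≤ T.map v := by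
    intro w hw
    refine ⟨⟨w, hMK' w hw⟩, ?_, rfl⟩
    rw [hT]
    exact IntermediateField.subset_adjoin _ _ (Or.inr ((hmem _).2 hw))
  have hall : ∀ w ∈ IntermediateField.adjoin Λ (M : Set F), w ∈ Acl (T.map v) := by
    intro w hw
    induction hw using IntermediateField.adjoin_induction with
    | mem x hx => exact le_acl _ (hMT hx)
    | algebraMap x =>
      have h1 : algebraMap Λ F x ∈ Acl (upF F U) := hLA _ (hΛ x)
      exact mem_acl.2 (alg_mono hUT (mem_acl.1 h1))
    | add x y _ _ h1 h2 => exact add_mem h1 h2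
    | inv x _ h1 => exact inv_mem h1
    | mul x y _ _ h1 h2 => exact mul_mem h1 h2
  have hz : IsAlgebraic (T.map v) (z : F) := by
    refine mem_acl.1 (acl_acl ?_)
    have h1 := hdom (z : F)
    let i : IntermediateField.adjoin Λ (M : Set F) →+* Acl (T.map v) :=
      ((IntermediateField.adjoin Λ (M : Set F)).val.toRingHom).codRestrict
        (Acl (T.map v)).toSubfield fun w => hall w w.2
    exact h1.ringHom_of_comp_eq i (RingHom.id F) i.injective rfl
  exact IsAlgebraic.of_ringHom_of_comp_eq (R := T) (S := T.map v) (A := K') (B := F) (a := z)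
    hz (f := (T.equivMap v).toRingEquiv.toRingHom) (g := K'.val.toRingHom)
    (T.equivMap v).surjective K'.val.injective rfl

end geo

end Pool.Agent.X180.Abn
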